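import Pool.Agent.Work.MP_223b32_FY.Interface2
import Pool.Agent.Work.MP_223b32_FF.FINALa

/-!
Block CUBE2: the sieve in a product of two cubes.
-/

namespace Pool.Agent.Work.FY

open Polynomial Finset Pool.Agent.Work.MP_223b32_ag
open Pool.Agent.Work.MP_223b32_ag_56 Pool.Agent.Work.FF

theorem append_inj {α : Type*} {m n : ℕ} :
    Function.Injective fun c : (Fin m → α) × (Fin n → α) => Fin.append c.1 c.2 := by
  rintro ⟨a, b⟩ ⟨a', b'⟩ h
  have h0 : Fin.append a b = Fin.append a' b' := h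
  refine Prod.ext ?_ ?_
  · funext i
    have := congrFun h0 (Fin.castAdd n i)
    rwa [Fin.append_left, Fin.append_left] at this
  · funext i
    have := congrFun h0 (Fin.natAdd m i)
    rwa [Fin.append_right, Fin.append_right] at this

theorem red_append {m n : ℕ} (ℓ : ℕ) (c : Fin m → ℤ) (c' : Fin n → ℤ) :
    red ℓ (Fin.append c c') = Fin.append (red ℓ c) (red ℓ c') := by
  funext i
  refine Fin.addCases (fun j => ?_) (fun j => ?_) i
  · simp only [red, Fin.append_left]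
  · simp only [red, Fin.append_right]

theorem exists_append {α : Type*} {m n : ℕ} (b : Fin (m + n) → α) :
    ∃ c : (Fin m → α) × (Fin n → α), Fin.append c.1 c.2 = b := by
  refine ⟨(fun i => b (Fin.castAdd n i), fun i => b (Fin.natAdd m i)), ?_⟩
  funext i
  refine Fin.addCases (fun j => ?_) (fun j => ?_) i
  · simp only [Fin.append_left]
  · simp only [Fin.append_right]

open Classical in
/-- The product classes. -/
noncomputable def patC2 (q g k d₁ d₂ d₃ k' e₁ e₂ e₃ : ℕ) (t t' : Fin g → ℤ) (ℓ : ℕ) :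
    Finset (Fin ((g - k) + (g - k')) → ZMod ℓ) :=
  (patC q g k d₁ d₂ d₃ t ℓ ×ˢ patC q g k' e₁ e₂ e₃ t' ℓ).image fun c => Fin.append c.1 c.2

theorem append_mem_patC2 {q g k d₁ d₂ d₃ k' e₁ e₂ e₃ : ℕ} {t t' : Fin g → ℤ} {ℓ : ℕ}
    {c : Fin (g - k) → ZMod ℓ} {c' : Fin (g - k') → ZMod ℓ} :
    Fin.append c c' ∈ patC2 q g k d₁ d₂ d₃ k' e₁ e₂ e₃ t t' ℓ ↔
      c ∈ patC q g k d₁ d₂ d₃ t ℓ ∧ c' ∈ patC q g k' e₁ e₂ e₃ t' ℓ := by
  classical
  unfold patC2
  rw [mem_image]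
  constructor
  · rintro ⟨x, hx, hxe⟩
    have h1 : x = (c, c') := append_inj hxe
    rw [h1, mem_product] at hx
    exact hx
  · intro h
    exact ⟨(c, c'), mem_product.2 h, rfl⟩

theorem card_patC2 (hPa : Stmt_PATT) {q g k d₁ d₂ d₃ k' e₁ e₂ e₃ ℓ : ℕ} (hℓ : ℓ.Prime)
    (t t' : Fin g → ℤ) (hadm : FF.Adm g k d₁ d₂ d₃) (hadm' : FF.Adm g k' e₁ e₂ e₃)
    (hbig : 100 * g < ℓ) (hq : (q : ZMod ℓ) ≠ 0) :
    1 / (256 * (g : ℝ) ^ 6) * (ℓ : ℝ) ^ ((g - k) + (g - k')) ≤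
      ((patC2 q g k d₁ d₂ d₃ k' e₁ e₂ e₃ t t' ℓ).card : ℝ) := by
  classical
  have h1 := card_patC hPa hℓ t hadm hbig hq
  have h2 := card_patC hPa hℓ t' hadm' hbig hq
  have h3 : (patC2 q g k d₁ d₂ d₃ k' e₁ e₂ e₃ t t' ℓ).card =
      (patC q g k d₁ d₂ d₃ t ℓ).card * (patC q g k' e₁ e₂ e₃ t' ℓ).card := by
    unfold patC2
    rw [card_image_of_injective _ append_inj, card_product]
  rw [h3, Nat.cast_mul]
  refine le_trans (le_of_eq ?_) (mul_le_mul h1 h2 (by positivity) (by positivity))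
  rw [pow_add]
  by_cases hg : (g : ℝ) = 0
  · rw [hg]
    simp
  · field_simp
    ring

/-- The sieve in a product of two cubes. -/
theorem stmt_CUBE2 (hS : FF.Stmt_CSIEVE) (hPa : FF.Stmt_PATT) : Stmt_CUBE2 := by
  classical
  intro p a g k d₁ d₂ d₃ k' e₁ e₂ e₃ A Z R ρ hp hadm hadm' hA hg hρ0 hρ1 hZ hN t t' u u'
  set P := (range (Z + 1)).filter fun ℓ => ℓ.Prime ∧ A ≤ ℓ ∧ ℓ ≠ p with hP
  have hNpos : (0 : ℝ) < P.card := by exact_mod_cast hN
  have hgpos : (0 : ℝ) < g := by exact_mod_cast hg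
  have hPmem : ∀ ℓ ∈ P, ℓ.Prime ∧ A ≤ ℓ ∧ ℓ ≤ Z ∧ ((p ^ a : ℕ) : ZMod ℓ) ≠ 0 := by
    intro ℓ hℓ
    obtain ⟨h1, h2, h3, h4⟩ := mem_filter.1 hℓ
    refine ⟨h2, h3, Nat.lt_succ_iff.1 (mem_range.1 h1), ?_⟩
    rw [Ne, ZMod.natCast_eq_zero_iff]
    intro h5
    exact h4 ((Nat.prime_dvd_prime_iff_eq h2 hp).1 (h2.dvd_of_dvd_pow h5))
  set m := (g - k) + (g - k') with hm
  have key := hS m R (Fin.append u u') P
    (patC2 (p ^ a) g k d₁ d₂ d₃ k' e₁ e₂ e₃ t t') (1 / (256 * (g : ℝ) ^ 6)) ρ Z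
    (fun ℓ hℓ => (hPmem ℓ hℓ).1) (by positivity)
    (fun ℓ hℓ => card_patC2 hPa (hPmem ℓ hℓ).1 t t' hadm hadm'
      (by have := (hPmem ℓ hℓ).2.1; omega) (hPmem ℓ hℓ).2.2.2) hρ0 hρ1
    (fun ℓ hℓ => by exact_mod_cast (hPmem ℓ hℓ).2.2.1) hZ
  have hmap : ∀ (K : ℕ) (s : Fin g → ℤ) (c : Fin (g - K) → ℤ) (ℓ : ℕ),
      (mk (glue c s)).map (Int.castRingHom (ZMod ℓ)) =
        mk (glue (red ℓ c) fun i => (s i : ZMod ℓ)) := by
    intro K s c ℓ
    rw [mk_map]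
    congr 1
    funext i
    exact glue_map (Int.castRingHom (ZMod ℓ)) c s i
  have hset : (fun c : (Fin (g - k) → ℤ) × (Fin (g - k') → ℤ) => Fin.append c.1 c.2) ''
      {c : (Fin (g - k) → ℤ) × (Fin (g - k') → ℤ) | (∀ i, u i ≤ c.1 i ∧ c.1 i < u i + R) ∧
        (∀ i, u' i ≤ c.2 i ∧ c.2 i < u' i + R) ∧ (mk (glue c.1 t), mk (glue c.2 t')) ∈
          BadPair (p ^ a) A Z p d₁ d₂ d₃ e₁ e₂ e₃} =
      (((Fintype.piFinset fun i => Ico (Fin.append u u' i) (Fin.append u u' i + R)).filter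
        fun b => ∀ ℓ ∈ P, red ℓ b ∉ patC2 (p ^ a) g k d₁ d₂ d₃ k' e₁ e₂ e₃ t t' ℓ :
        Finset (Fin m → ℤ)) : Set (Fin m → ℤ)) := by
    have hiff : ∀ (c : Fin (g - k) → ℤ) (c' : Fin (g - k') → ℤ),
        ((∀ i, u i ≤ c i ∧ c i < u i + R) ∧ (∀ i, u' i ≤ c' i ∧ c' i < u' i + R) ∧
          (mk (glue c t), mk (glue c' t')) ∈ BadPair (p ^ a) A Z p d₁ d₂ d₃ e₁ e₂ e₃) ↔
        ((∀ i : Fin m, Fin.append c c' i ∈ Ico (Fin.append u u' i) (Fin.append u u' i + R)) ∧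
          ∀ ℓ ∈ P, red ℓ (Fin.append c c') ∉
            patC2 (p ^ a) g k d₁ d₂ d₃ k' e₁ e₂ e₃ t t' ℓ) := by
      intro c c'
      rw [← and_assoc]
      refine and_congr ?_ ?_
      · constructor
        · rintro ⟨h1, h2⟩ i
          refine Fin.addCases (fun j => ?_) (fun j => ?_) i
          · rw [Fin.append_left, Fin.append_left, mem_Ico]
            exact h1 j
          · rw [Fin.append_right, Fin.append_right, mem_Ico]
            exact h2 j
        · intro h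
          constructor
          · intro j
            have := h (Fin.castAdd (g - k') j)
            rwa [Fin.append_left, Fin.append_left, mem_Ico] at this
          · intro j
            have := h (Fin.natAdd (g - k) j)
            rwa [Fin.append_right, Fin.append_right, mem_Ico] at this
      · refine forall₂_congr fun ℓ hℓ => ?_
        rw [red_append, append_mem_patC2, mem_patC (hPmem ℓ hℓ).1.ne_zero,
          mem_patC (hPmem ℓ hℓ).1.ne_zero, ← hmap, ← hmap]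
    ext b
    rw [mem_coe, mem_filter, Fintype.mem_piFinset, Set.mem_image]
    constructor
    · rintro ⟨c, hc, rfl⟩
      exact (hiff c.1 c.2).1 hc
    · intro hb
      obtain ⟨c, hc⟩ := exists_append b
      subst hc
      exact ⟨c, (hiff c.1 c.2).2 hb, rfl⟩
  rw [← Set.ncard_image_of_injective _ append_inj, hset, Set.ncard_coe_finset]
  have h2 : (1 : ℝ) / (1 / (256 * (g : ℝ) ^ 6)) ^ 2 = 65536 * (g : ℝ) ^ 12 := by
    field_simp
    norm_num
  rw [h2] at key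
  have h3 : (65536 * (g : ℝ) ^ 12 / (P.card : ℝ) + 3 * (2 ^ m * ρ)) * (R : ℝ) ^ m =
      (R : ℝ) ^ m * (65536 * (g : ℝ) ^ 12 + 3 * (2 ^ m * ρ) * P.card) / P.card := by
    field_simp
  rw [h3, le_div_iff₀ hNpos, mul_comm]
  exact key

end Pool.Agent.Work.FY
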