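import Pool.Agent.Work.MP_223b32_FY.Interface

/-!
Block OVER of the relative version of the project fixed finite field (MP_223b32_ag): flips over
finitely many fields of small degree (helper64).
-/

namespace Pool.Agent.Work.FY

open Polynomial Finset TensorProduct Pool.Agent.Work.MP_223b32_ag
open Pool.Agent.Work.MP_223b32_ag_56 Pool.Agent.Work.FF Pool.Agent.Work.T3

namespace OVER64

theorem hom_aeval {A B : Type} [CommRing A] [CommRing B] (f : A →+* B) (x : A) (P : ℤ[X]) :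
    f (aeval x P) = aeval (f x) P := by
  rw [aeval_def, aeval_def, hom_eval₂]
  congr 1
  exact Subsingleton.elim _ _

section

variable {L : Type} [Field L] [NumberField L]

/-- the action of the Galois group on a stable finite set -/
noncomputable def permHom (R : Finset L) (hR : ∀ (τ : Gal(L/ℚ)) (r : L), r ∈ R ↔ τ r ∈ R) :
    Gal(L/ℚ) →* Equiv.Perm {r // r ∈ R} where
  toFun τ := τ.toEquiv.subtypeEquiv (hR τ)
  map_one' := by ext; rfl
  map_mul' σ τ := by ext; rfl

theorem permHom_apply (R : Finset L) (hR : ∀ (τ : Gal(L/ℚ)) (r : L), r ∈ R ↔ τ r ∈ R)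
    (τ : Gal(L/ℚ)) (r : {r // r ∈ R}) : ((permHom R hR τ r : {r // r ∈ R}) : L) = τ (r : L) := rfl

open Classical in
/-- the roots -/
noncomputable def rts (L : Type) [Field L] [NumberField L] (P : ℤ[X]) : Finset L :=
  (P.map (Int.castRingHom L)).roots.toFinset

theorem mem_rts {P : ℤ[X]} (hP : P.Monic) (r : L) : r ∈ rts L P ↔ aeval r P = 0 := by
  classical
  unfold rts
  rw [Multiset.mem_toFinset, mem_roots (hP.map _).ne_zero, IsRoot.def, eval_map,
    ← algebraMap_int_eq, ← aeval_def]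

theorem card_rts_le {P : ℤ[X]} (hP : P.Monic) : (rts L P).card ≤ P.natDegree := by
  classical
  unfold rts
  refine (Multiset.toFinset_card_le _).trans ((card_roots' _).trans ?_)
  rw [hP.natDegree_map]

theorem card_rts {h : ℤ[X]} (hm : h.Monic) (hirr : Irreducible (h.map (Int.castRingHom ℚ)))
    (hs : (h.map (Int.castRingHom L)).Splits) : (rts L h).card = h.natDegree := by
  classical
  have hsepa : (h.map (Int.castRingHom L)).Separable := by
    have h1 : (h.map (Int.castRingHom ℚ)).Separable := hirr.separable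
    have h2 : (h.map (Int.castRingHom ℚ)).map (algebraMap ℚ L) = h.map (Int.castRingHom L) := by
      rw [Polynomial.map_map]
      congr 1
      exact Subsingleton.elim _ _
    rw [← h2]
    exact h1.map
  have h3 : (h.map (Int.castRingHom L)).roots.Nodup := nodup_roots hsepa
  unfold rts
  rw [Multiset.toFinset_card_of_nodup h3, ← hs.natDegree_eq_card_roots, hm.natDegree_map]

theorem gal_root {P : ℤ[X]} (τ : Gal(L/ℚ)) {z : L} (hz : aeval z P = 0) : aeval (τ z) P = 0 := by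
  have := hom_aeval (τ : L →+* L) z P
  rw [hz, map_zero] at this
  exact this.symm

theorem rts_stable {P : ℤ[X]} (hP : P.Monic) (τ : Gal(L/ℚ)) (r : L) :
    r ∈ rts L P ↔ τ r ∈ rts L P := by
  rw [mem_rts hP, mem_rts hP]
  refine ⟨fun h => gal_root τ h, fun h => ?_⟩
  have h1 := gal_root (τ⁻¹) h
  have h2 : τ⁻¹ (τ r) = r := AlgEquiv.symm_apply_apply τ r
  rwa [h2] at h1

theorem alt_le [IsGalois ℚ L] {h : ℤ[X]} (hm : h.Monic) (hs : (h.map (Int.castRingHom L)).Splits)
    (h3 : ThreeCycles h) :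
    letI : DecidableEq L := Classical.decEq L
    alternatingGroup {r // r ∈ rts L h} ≤ (permHom (rts L h) (rts_stable hm)).range := by
  let _ : DecidableEq L := Classical.decEq L
  show alternatingGroup {r // r ∈ rts L h} ≤ (permHom (rts L h) (rts_stable hm)).range
  rw [← Equiv.Perm.closure_three_cycles_eq_alternating, Subgroup.closure_le]
  intro σ hσ
  have hσ : σ.IsThreeCycle := hσ
  have ho : σ ^ 3 = 1 := by rw [← hσ.orderOf]; exact pow_orderOf_eq_one σ
  have hc : σ.support.card = 3 := hσ.card_support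
  obtain ⟨a, ha⟩ : σ.support.Nonempty := by rw [← Finset.card_pos]; omega
  have h1 : σ a ≠ a := Equiv.Perm.mem_support.1 ha
  have h2 : σ (σ a) ≠ σ a := fun h => h1 (σ.injective h)
  have h3' : σ (σ (σ a)) = a := by
    have := Equiv.ext_iff.1 ho a
    simpa [pow_succ] using this
  have h4 : σ (σ a) ≠ a := by
    intro h
    apply h1
    rw [h] at h3'
    exact h3'
  have hroot : ∀ r : {r // r ∈ rts L h}, aeval (r : L) h = 0 := fun r => (mem_rts hm _).1 r.2
  obtain ⟨τ, t1, t2, t3, t4⟩ := h3 L hs (a : L) (σ a : L) (σ (σ a) : L) (hroot _) (hroot _)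
    (hroot _) (fun h => h1 (Subtype.ext h).symm) (fun h => h2 (Subtype.ext h).symm)
    (fun h => h4 (Subtype.ext h).symm)
  refine ⟨τ, ?_⟩
  ext r
  rw [permHom_apply]
  by_cases r1 : r = a
  · rw [r1, t1]
  by_cases r2 : r = σ a
  · rw [r2, t2]
  by_cases r3 : r = σ (σ a)
  · rw [r3, t3, h3']
  have hr : r ∉ σ.support := by
    intro hr
    have hsub : ({r, a, σ a, σ (σ a)} : Finset {r // r ∈ rts L h}) ⊆ σ.support := by
      intro x hx
      simp only [Finset.mem_insert, Finset.mem_singleton] at hx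
      rcases hx with rfl | rfl | rfl | rfl
      · exact hr
      · exact ha
      · exact Equiv.Perm.mem_support.2 h2
      · exact Equiv.Perm.mem_support.2 (fun h => h4 (by rw [h3'] at h; exact h.symm))
    have hcard : ({r, a, σ a, σ (σ a)} : Finset {r // r ∈ rts L h}).card = 4 := by
      rw [Finset.card_insert_of_notMem, Finset.card_insert_of_notMem,
        Finset.card_insert_of_notMem, Finset.card_singleton]
      · simp only [Finset.mem_singleton]
        exact fun h => h2 h.symm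
      · simp only [Finset.mem_insert, Finset.mem_singleton, not_or]
        exact ⟨fun h => h1 h.symm, fun h => h4 h.symm⟩
      · simp only [Finset.mem_insert, Finset.mem_singleton, not_or]
        exact ⟨r1, r2, r3⟩
    have := Finset.card_le_card hsub
    omega
  rw [t4 _ (hroot r) (fun h => r1 (Subtype.ext h)) (fun h => r2 (Subtype.ext h))
    (fun h => r3 (Subtype.ext h)), Equiv.Perm.notMem_support.1 hr]

theorem conj_root {Q : ℕ} (hQ : Q ≠ 0) {P : ℤ[X]}
    (hn : ∀ z : ℂ, aeval z P = 0 → ‖z‖ ^ 2 = (Q : ℝ)) {z : L} (hz : aeval z P = 0) :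
    z ≠ 0 ∧ aeval ((Q : L) / z) P = 0 := by
  obtain ⟨ι⟩ : Nonempty (L →+* ℂ) := inferInstance
  have h1 : aeval (ι z) P = 0 := by rw [← hom_aeval, hz, map_zero]
  have h2 := hn _ h1
  have hz0 : z ≠ 0 := by
    rintro rfl
    rw [map_zero, norm_zero] at h2
    have h3 : (Q : ℝ) = 0 := by rw [← h2]; norm_num
    exact hQ (by exact_mod_cast h3)
  refine ⟨hz0, ?_⟩
  have h3 : aeval ((starRingEnd ℂ) (ι z)) P = 0 := by rw [← hom_aeval, h1, map_zero]
  have h4 : (starRingEnd ℂ) (ι z) = ι ((Q : L) / z) := by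
    rw [map_div₀, map_natCast, eq_div_iff ((_root_.map_ne_zero ι).2 hz0), mul_comm,
      Complex.mul_conj, Complex.normSq_eq_norm_sq, h2]
    simp
  rw [h4, ← hom_aeval] at h3
  exact ι.injective (by rw [h3, map_zero])

theorem small_action {Q : ℕ} (hQ : Q ≠ 0) {P : ℤ[X]} (hP : P.Monic)
    (hn : ∀ z : ℂ, aeval z P = 0 → ‖z‖ ^ 2 = (Q : ℝ)) {n : ℕ} (hd : P.natDegree < 2 * n) :
    ∃ (m : ℕ) (ψ : Gal(L/ℚ) →* Equiv.Perm (Fin m)), m < n ∧
      ∀ σ, ψ σ = 1 → ∀ z : L, aeval z P = 0 → σ (σ z) = z := by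
  classical
  obtain ⟨Z, hZ⟩ : ∃ Z, Z = (rts L P).filter (fun z => z ^ 2 ≠ (Q : L)) := ⟨_, rfl⟩
  obtain ⟨W, hW⟩ : ∃ W, W = Z.image (fun z => z + (Q : L) / z) := ⟨_, rfl⟩
  have hZmem : ∀ z, z ∈ Z ↔ aeval z P = 0 ∧ z ^ 2 ≠ (Q : L) := by
    intro z
    rw [hZ, Finset.mem_filter, mem_rts hP]
  have hQL : (Q : L) ≠ 0 := by exact_mod_cast hQ
  have hdual : ∀ z ∈ Z, z ≠ 0 ∧ (Q : L) / z ∈ Z ∧ (Q : L) / z ≠ z := by
    intro z hz
    obtain ⟨h1, h2⟩ := (hZmem z).1 hz
    obtain ⟨h3, h4⟩ := conj_root hQ hn h1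
    refine ⟨h3, (hZmem _).2 ⟨h4, ?_⟩, ?_⟩
    · intro h5
      apply h2
      field_simp at h5
      linear_combination -h5
    · intro h5
      apply h2
      field_simp at h5
      linear_combination -h5
  have hcard : 2 * W.card ≤ Z.card := by
    rw [hW]
    refine Finset.mul_card_image_le_card Z 2 ?_
    intro w hw
    obtain ⟨z, hz, rfl⟩ := Finset.mem_image.1 hw
    obtain ⟨h1, h2, h3⟩ := hdual z hz
    have hsub : ({(Q : L) / z, z} : Finset L) ⊆
        Z.filter (fun u => u + (Q : L) / u = z + (Q : L) / z) := by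
      intro u hu
      simp only [Finset.mem_insert, Finset.mem_singleton] at hu
      rcases hu with rfl | rfl
      · refine Finset.mem_filter.2 ⟨h2, ?_⟩
        field_simp
        ring
      · exact Finset.mem_filter.2 ⟨hz, rfl⟩
    have := Finset.card_le_card hsub
    rwa [Finset.card_pair h3] at this
  have hWn : W.card < n := by
    have h1 : Z.card ≤ (rts L P).card := by rw [hZ]; exact Finset.card_filter_le _ _
    have h2 := card_rts_le (L := L) hP
    omega
  have hfwd : ∀ (τ : Gal(L/ℚ)) (r : L), r ∈ W → τ r ∈ W := by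
    intro τ r hr
    rw [hW] at hr ⊢
    obtain ⟨z, hz, rfl⟩ := Finset.mem_image.1 hr
    obtain ⟨h1, h2⟩ := (hZmem z).1 hz
    refine Finset.mem_image.2 ⟨τ z, (hZmem _).2 ⟨gal_root τ h1, ?_⟩, ?_⟩
    · intro h3
      apply h2
      apply τ.injective
      rw [map_pow, map_natCast, h3]
    · rw [map_add, map_div₀, map_natCast]
  have hst : ∀ (τ : Gal(L/ℚ)) (r : L), r ∈ W ↔ τ r ∈ W := by
    intro τ r
    refine ⟨hfwd τ r, fun h => ?_⟩
    have h1 := hfwd τ⁻¹ _ h
    have h2 : τ⁻¹ (τ r) = r := AlgEquiv.symm_apply_apply τ r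
    rwa [h2] at h1
  refine ⟨W.card, (W.equivFin.permCongrHom : Equiv.Perm {r // r ∈ W} →* _).comp
    (permHom W hst), hWn, ?_⟩
  intro σ hσ z hz
  have h1 : permHom W hst σ = 1 := by
    apply W.equivFin.permCongrHom.injective
    rw [map_one]
    exact hσ
  by_cases hz2 : z ^ 2 = (Q : L)
  · have h2 : (σ z - z) * (σ z + z) = 0 := by
      have h3 : σ z ^ 2 = (Q : L) := by rw [← map_pow, hz2, map_natCast]
      linear_combination h3 - hz2
    rcases mul_eq_zero.1 h2 with h3 | h3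
    · have h4 : σ z = z := sub_eq_zero.1 h3
      rw [h4, h4]
    · have h4 : σ z = -z := eq_neg_of_add_eq_zero_left h3
      rw [h4, map_neg, h4, neg_neg]
  · have hzZ : z ∈ Z := (hZmem z).2 ⟨hz, hz2⟩
    obtain ⟨h2, h3, _⟩ := hdual z hzZ
    have hw : z + (Q : L) / z ∈ W := by rw [hW]; exact Finset.mem_image_of_mem _ hzZ
    have h4 : σ (z + (Q : L) / z) = z + (Q : L) / z := by
      have h5 := permHom_apply W hst σ ⟨_, hw⟩
      rw [h1] at h5
      exact h5.symm
    rw [map_add, map_div₀, map_natCast] at h4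
    rcases GALAux.two_sol z (σ z) h2 ((_root_.map_ne_zero σ).2 h2) h4 with h5 | h5
    · rw [h5, h5]
    · rw [h5, map_div₀, map_natCast, h5]
      field_simp

end

end OVER64

theorem stmt_OVER (hGRP : Stmt_GRP) : Stmt_OVER := by
  intro L _ _ _ q h hq hm hirr hdeg hs hsol hsep h3 Ps hPs x hx0 hx
  let _ : DecidableEq L := Classical.decEq L
  have hX := OVER64.card_rts (L := L) hm hirr hs
  -- the fixing subgroups
  let N : ℤ[X] → Subgroup Gal(L/ℚ) := fun P =>
    { carrier := {σ | ∀ z : L, aeval z P = 0 → σ z = z}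
      one_mem' := fun z _ => rfl
      mul_mem' := by
        intro σ τ hσ hτ z hz
        show σ (τ z) = z
        rw [hτ z hz, hσ z hz]
      inv_mem' := by
        intro σ hσ z hz
        show σ.symm z = z
        rw [AlgEquiv.symm_apply_eq]
        exact (hσ z hz).symm }
  have hN : ∀ P (σ : Gal(L/ℚ)), σ ∈ N P ↔ ∀ z : L, aeval z P = 0 → σ z = z := fun P σ => Iff.rfl
  obtain ⟨τ₀, hτ₀, hne⟩ := hGRP Gal(L/ℚ) {r // r ∈ OVER64.rts L h}
    (OVER64.permHom (OVER64.rts L h) (OVER64.rts_stable hm))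
    (by rw [Fintype.card_coe, hX]; exact hdeg) (OVER64.alt_le hm hs h3) ℤ[X] Ps N (by
      intro P hP
      obtain ⟨hPm, hPd, _, a, ha⟩ := hPs P hP
      refine ⟨⟨?_⟩, ?_⟩
      · intro σ hσ g z hz
        show g (σ (g⁻¹ z)) = z
        rw [(hN P σ).1 hσ (g⁻¹ z) (OVER64.gal_root g⁻¹ hz)]
        exact AlgEquiv.apply_symm_apply g z
      · obtain ⟨m, ψ, h1, h2⟩ := OVER64.small_action (L := L) (Q := q ^ a) (pow_ne_zero _ hq) hPm
          (fun z hz => by rw [ha z hz]; push_cast; rfl) hPd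
        refine ⟨m, ψ, by rw [Fintype.card_coe, hX]; exact h1, ?_⟩
        intro σ hσ
        rw [hN]
        intro z hz
        rw [pow_two]
        exact h2 σ hσ z hz) ⟨x + q / x, (OVER64.mem_rts hm _).2 hx⟩
  have hne' : τ₀ (x + q / x) ≠ x + q / x := by
    intro h0
    exact hne (Subtype.ext h0)
  have hr2 : aeval (τ₀ (x + q / x)) h = 0 := OVER64.gal_root τ₀ hx
  obtain ⟨y, hy0, hy⟩ := hsol _ hr2
  obtain ⟨τ, hτ, hc⟩ := hsep x y hx0 hy0 hx (by rw [hy]; exact hr2)
    (by rw [hy]; exact fun h0 => hne' h0.symm)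
  have hinv : ∀ (ρ : Gal(L/ℚ)) (u v : L), ρ u = v → ρ⁻¹ v = u := by
    intro ρ u v huv
    rw [← huv]
    exact AlgEquiv.symm_apply_apply ρ u
  have hτ0x : τ₀ x = y ∨ τ₀ x = q / y := by
    refine GALAux.two_sol y (τ₀ x) hy0 ((_root_.map_ne_zero τ₀).2 hx0) ?_
    rw [hy, map_add, map_div₀, map_natCast]
  have hq0 : (q : L) ≠ 0 := by exact_mod_cast hq
  refine ⟨τ * τ₀⁻¹ * τ⁻¹ * τ₀, ?_, ?_, ?_, ?_⟩
  · intro P hP z hz
    have h0 : ∀ u : L, aeval u P = 0 → τ₀ u = u := (hN P τ₀).1 (hτ₀ P hP)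
    show τ (τ₀⁻¹ (τ⁻¹ (τ₀ z))) = z
    rw [h0 z hz, hinv τ₀ (τ⁻¹ z) (τ⁻¹ z) (h0 _ (OVER64.gal_root τ⁻¹ hz))]
    exact AlgEquiv.apply_symm_apply τ z
  · intro z hz
    show τ (τ₀⁻¹ (τ⁻¹ (τ₀ z))) = z
    rw [hinv τ (τ₀ z) (τ₀ z) (hτ _ (OVER64.gal_root τ₀ hz)), hinv τ₀ z (τ₀ z) rfl, hτ z hz]
  · show τ (τ₀⁻¹ (τ⁻¹ (τ₀ x))) = q / x
    rcases hc with ⟨h1, h2, h4⟩ | ⟨h1, h2, h4⟩
    · have h5 : τ (τ₀ x) = τ₀ x := by
        rcases hτ0x with h6 | h6
        · rw [h6, h4]
        · rw [h6, map_div₀, map_natCast, h4]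
      rw [hinv τ _ _ h5, hinv τ₀ x _ rfl, h1]
    · have h5 : τ (q / τ₀ x) = τ₀ x := by
        rcases hτ0x with h6 | h6
        · rw [h6, map_div₀, map_natCast, h2]
          field_simp
        · rw [h6, map_div₀, map_natCast, map_div₀, map_natCast, h2]
          field_simp
      have h6 : τ₀ (q / x) = q / τ₀ x := by rw [map_div₀, map_natCast]
      rw [hinv τ _ _ h5, hinv τ₀ _ _ h6, map_div₀, map_natCast, h1]
  · rcases hc with ⟨h1, h2, h4⟩ | ⟨h1, h2, h4⟩
    · exact h2
    · intro h5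
      apply h4
      have h6 : τ₀ x = q / τ₀ x := by
        conv_lhs => rw [h5]
        rw [map_div₀, map_natCast]
      rcases hτ0x with h7 | h7
      · rw [h7] at h6
        exact h6
      · rw [h7] at h6
        have h8 : (q : L) / (q / y) = y := by field_simp
        rw [h8] at h6
        exact h6.symm

end Pool.Agent.Work.FY
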